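import Mathlib
import Pool.Agent.N109.T3.RF

/-!
# The short distance behaviour of the two-point function of the renormalised field
-/

open MeasureTheory Pool.Agent.N991.MK Pool.Agent.N989.MK Filter Pool.Agent.N109.T3
open Pool.Agent.N681.MK (evo evo_add evo_zero evo_congr_nrm evo_nrm cont_evo)
open scoped Topology

namespace Pool.Agent.N839.T3

set_option linter.unusedSectionVars false

noncomputable section

variable {G : Type*} [Group G] [TopologicalSpace G] [IsTopologicalGroup G] [CompactSpace G]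
  [MeasurableSpace G] [BorelSpace G] [SecondCountableTopology G]
  {μ : Measure G} [IsProbabilityMeasure μ] [μ.IsHaarMeasure] [μ.IsMulRightInvariant]
  [μ.IsInvInvariant]

/-- a plaquette -/
def pq0 : ∀ n : ℕ, Pq n
  | 0 => ()
  | n + 1 => (0, 0, pq0 n)

/-- The lattice theories `w i` with the field `O`, with `2 ^ l i` lattice units as unit of length,
converge to the theory `Fk` with the renormalised field `φ`. -/
structure LT (μ : Measure G) (w : ℕ → G → ℝ) (l : ℕ → ℕ) (O : G → ℝ) (Fk φ : ℤ → G → ℝ) :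
    Prop where
  ft : FT μ Fk φ
  adm : ∀ i, Adm (w i)
  len : Tendsto l atTop atTop
  cont : Continuous O
  cls : Cls O
  sy : Sy O
  conv : ∀ k : ℤ, UT (fun i => nrm μ (TTn μ (w i) ((l i : ℤ) + k).toNat)) (Fk k)
  fld : ∀ k : ℤ, UT (fun i => evo μ (w i) O ((l i : ℤ) + k).toNat) (φ k)

/-- `V` is the covariance of the field at the plaquettes in different sheets. -/
def IsCov (μ : Measure G) (V : (G → ℝ) → (G → ℝ) → ℕ → ℕ → ℝ) : Prop :=
  ∀ Z h : G → ℝ, Adm Z → Continuous h → Cls h → Sy h → ∀ (j : ℕ) (p q : Pq j), Sep p q →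
    (16 : ℝ) ^ (2 * anc j p q) * Cv μ Z j p q h h = V Z h (anc j p q) (j - anc j p q)

variable {w : ℕ → G → ℝ} {l : ℕ → ℕ} {O : G → ℝ} {Fk φ : ℤ → G → ℝ}
  {V : (G → ℝ) → (G → ℝ) → ℕ → ℕ → ℝ}

/-- the convergence of the two-point functions -/
theorem LT.cv (h : LT μ w l O Fk φ) (k : ℤ) {j : ℕ} {p q : Pq j} (hpq : p ≠ q) :
    Tendsto (fun i => (16 : ℝ) ^ (2 * ((l i : ℤ) + k).toNat) *
      Cv μ (w i) (((l i : ℤ) + k).toNat + j) (jn p (pq0 ((l i : ℤ) + k).toNat))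
        (jn q (pq0 ((l i : ℤ) + k).toNat)) O O) atTop
      (𝓝 (Cv μ (Fk k) j p q (φ k) (φ k))) := by
  rw [Metric.tendsto_atTop']
  intro ε hε
  have h1 := corr_conv (μ := μ) h.adm (h.ft.adm k) (h.conv k) h.cont h.cls (h.ft.cont k)
    (h.fld k) (inj2 hpq) hε
  obtain ⟨n, hn⟩ := eventually_atTop.1 h1
  refine ⟨n, fun i hi => ?_⟩
  have h2 := hn i hi.le (fun _ => pq0 _)
  rw [Real.dist_eq, Cv_eq (h.ft.adm k) _ _ (h.ft.cont k), Cv_eq (h.adm i) _ _ h.cont]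
  refine lt_of_le_of_lt (le_of_eq ?_) h2
  congr 3

/-- the two-point function of the limit as the limit of the covariances in the lattice -/
theorem LT.lim (h : LT μ w l O Fk φ) (hV : IsCov μ V) {k : ℤ} {j m : ℕ} {p q : Pq j}
    (hpq : Sep p q) (hm : k + anc j p q = -m) :
    Tendsto (fun i => V (w i) O (l i - m) (j - anc j p q)) atTop
      (𝓝 ((16 : ℝ) ^ (2 * anc j p q) * Cv μ (Fk k) j p q (φ k) (φ k))) := by
  have h1 := (h.cv k hpq.ne).const_mul ((16 : ℝ) ^ (2 * anc j p q))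
  refine h1.congr' ?_
  filter_upwards [h.len.eventually (eventually_ge_atTop (-k).toNat)] with i hi
  obtain ⟨n, hn⟩ : ∃ n : ℕ, n = ((l i : ℤ) + k).toNat := ⟨_, rfl⟩
  rw [← hn]
  have h2 := hV (w i) O (h.adm i) h.cont h.cls h.sy (n + j) (jn p (pq0 n)) (jn q (pq0 n))
    (sep_jn _ _ hpq)
  rw [anc_jn _ _ hpq.ne] at h2
  have e1 : n + j - (n + anc j p q) = j - anc j p q := by omega
  have e2 : n + anc j p q = l i - m := by omega
  rw [e1] at h2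
  rw [← e2, ← h2]
  ring

/-- **Short distances**: uniform bounds -/
theorem LT.short (h : LT μ w l O Fk φ) (hV : IsCov μ V) {m0 : ℕ} {c C : ℝ}
    (hb : ∀ m : ℕ, m0 ≤ m → ∀ d : ℕ, ∀ᶠ i in atTop, c ≤ (m : ℝ) ^ 2 * V (w i) O (l i - m) d ∧
      (m : ℝ) ^ 2 * V (w i) O (l i - m) d ≤ C) :
    ∀ (k : ℤ) (j : ℕ) (p q : Pq j), Sep p q → k + anc j p q ≤ -m0 →
      c ≤ 16 ^ (2 * anc j p q) * (k + anc j p q : ℝ) ^ 2 * Cv μ (Fk k) j p q (φ k) (φ k) ∧
        16 ^ (2 * anc j p q) * (k + anc j p q : ℝ) ^ 2 * Cv μ (Fk k) j p q (φ k) (φ k) ≤ C := by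
  intro k j p q hpq hk
  obtain ⟨m, hm⟩ : ∃ m : ℕ, k + anc j p q = -m := ⟨(-(k + anc j p q)).toNat, by omega⟩
  have h1 := (h.lim hV hpq hm).const_mul ((m : ℝ) ^ 2)
  have e1 : (k : ℝ) + (anc j p q : ℝ) = -m := by exact_mod_cast hm
  have e2 : 16 ^ (2 * anc j p q) * (k + anc j p q : ℝ) ^ 2 * Cv μ (Fk k) j p q (φ k) (φ k) =
      (m : ℝ) ^ 2 * ((16 : ℝ) ^ (2 * anc j p q) * Cv μ (Fk k) j p q (φ k) (φ k)) := by
    rw [e1]
    ring
  rw [e2]
  have h2 := hb m (by omega) (j - anc j p q)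
  exact ⟨ge_of_tendsto h1 (h2.mono fun i hi => hi.1), le_of_tendsto h1 (h2.mono fun i hi => hi.2)⟩

/-- **Short distances**: the constant in the smallest volume -/
theorem LT.exact (h : LT μ w l O Fk φ) (hV : IsCov μ V) {L : ℝ}
    (hb : ∀ ε : ℝ, 0 < ε → ∃ m0 : ℕ, ∀ m : ℕ, m0 ≤ m → ∀ᶠ i in atTop,
      |(m : ℝ) ^ 2 * V (w i) O (l i - m) 0 - L| ≤ ε) :
    ∀ ε : ℝ, 0 < ε → ∃ m0 : ℕ, ∀ (m j : ℕ) (p q : Pq j), m0 ≤ m → Sep p q → anc j p q = j →
      |(16 : ℝ) ^ (2 * j) * m ^ 2 * Cv μ (Fk (-m - j)) j p q (φ (-m - j)) (φ (-m - j)) - L| ≤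
        ε := by
  intro ε hε
  obtain ⟨m0, hm0⟩ := hb ε hε
  refine ⟨m0, fun m j p q hm hpq hj => ?_⟩
  have hk : (-(m : ℤ) - j) + anc j p q = -m := by
    rw [hj]
    ring
  have h1 := (h.lim hV hpq hk).const_mul ((m : ℝ) ^ 2)
  rw [hj, Nat.sub_self] at h1
  have e2 : (16 : ℝ) ^ (2 * j) * m ^ 2 * Cv μ (Fk (-m - j)) j p q (φ (-m - j)) (φ (-m - j)) =
      (m : ℝ) ^ 2 * ((16 : ℝ) ^ (2 * j) *
        Cv μ (Fk (-m - j)) j p q (φ (-m - j)) (φ (-m - j))) := by ring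
  rw [e2]
  exact le_of_tendsto (h1.sub_const L).abs (hm0 m hm)

/-- **Positivity** -/
theorem cv_nonneg (h : FT μ Fk φ) (hs : ∀ k, Sy (φ k)) (hV : IsCov μ V)
    (hp : ∀ Z h : G → ℝ, Adm Z → Continuous h → Cls h → Sy h → ∀ a d, 0 ≤ V Z h a d) :
    ∀ (k : ℤ) (j : ℕ) (p q : Pq j), Sep p q → 0 ≤ Cv μ (Fk k) j p q (φ k) (φ k) := by
  intro k j p q hpq
  have h1 := hV (Fk k) (φ k) (h.adm k) (h.cont k) (h.cls k) (hs k) j p q hpq
  have h2 := hp (Fk k) (φ k) (h.adm k) (h.cont k) (h.cls k) (hs k) (anc j p q) (j - anc j p q)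
  rw [← h1] at h2
  exact nonneg_of_mul_nonneg_right h2 (by positivity)

end

end Pool.Agent.N839.T3
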