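import Mathlib
import Pool.Agent.N839.T3.Short
import Pool.Agent.N838.T3.CovG

/-!
# The covariance of the field in different sheets
-/

open MeasureTheory Pool.Agent.N991.MK Pool.Agent.N989.MK Filter Pool.Agent.N109.T3
open Pool.Agent.N681.MK (evo evo_add evo_zero evo_congr_nrm evo_nrm cont_evo)
open Pool.Agent.N838.T3 (env vr Cv_evo vr_nonneg cont_env env_pos)
open scoped Topology

namespace Pool.Agent.N839.T3

set_option linter.unusedSectionVars false

noncomputable section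

variable {G : Type*} [Group G] [TopologicalSpace G] [IsTopologicalGroup G] [CompactSpace G]
  [MeasurableSpace G] [BorelSpace G] [SecondCountableTopology G]
  {μ : Measure G} [IsProbabilityMeasure μ] [μ.IsHaarMeasure] [μ.IsMulRightInvariant]
  [μ.IsInvInvariant]

/-- the variance of the field of the level `a` in the environment of the next `d` levels -/
def VV (μ : Measure G) (Z h : G → ℝ) (a d : ℕ) : ℝ :=
  vr μ (TTn μ Z a) (fun x => evo μ Z h a x * TTn μ Z a x) (env μ Z a d)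

theorem isCov_VV : IsCov μ (VV μ) := by
  intro Z h hZ hh hc _ j p q hpq
  rw [Cv_evo hZ hh hc p q hpq]
  unfold VV
  rw [← mul_assoc, ← mul_pow]
  norm_num

theorem VV_nonneg (Z h : G → ℝ) (hZ : Adm Z) (hh : Continuous h) (a d : ℕ) :
    0 ≤ VV μ Z h a d :=
  vr_nonneg (hZ.TTn a) ((cont_evo hZ hh a).mul (hZ.TTn a).cont) (cont_env hZ _ _) (env_pos hZ _ _)

end

/-! ### In the notation of the estimates -/

section

variable {N : ℕ} {G : Subgroup (Pool.Agent.H906R3.YM.UN N)} [CompactSpace G] [MeasurableSpace G]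
  [BorelSpace G]
  {μ : Measure G} [IsProbabilityMeasure μ] [μ.IsHaarMeasure] [μ.IsMulRightInvariant]
  [μ.IsInvInvariant]

lemma VV_eq (Z h : G → ℝ) (a d : ℕ) : VV μ Z h a d =
    Pool.Agent.N453.MK.vr μ (TTn μ Z a) (fun x => evo μ Z h a x * TTn μ Z a x)
      (Pool.Agent.N565.MK.env μ Z a d) := by
  unfold VV
  rw [Pool.Agent.N838.T3.env_same]
  rfl

variable {w : ℕ → G → ℝ} {l : ℕ → ℕ} {O : G → ℝ} {Fk φ : ℤ → G → ℝ}

/-- **Short distances**, from the bounds of the variances in the lattice -/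
theorem short_of_vr (h : LT μ w l O Fk φ) {m0 : ℕ} {c C : ℝ}
    (hb : ∀ m : ℕ, m0 ≤ m → ∀ d : ℕ, ∀ᶠ i in atTop,
      c ≤ (m : ℝ) ^ 2 * Pool.Agent.N453.MK.vr μ (TTn μ (w i) (l i - m))
        (fun x => evo μ (w i) O (l i - m) x * TTn μ (w i) (l i - m) x)
        (Pool.Agent.N565.MK.env μ (w i) (l i - m) d) ∧
      (m : ℝ) ^ 2 * Pool.Agent.N453.MK.vr μ (TTn μ (w i) (l i - m))
        (fun x => evo μ (w i) O (l i - m) x * TTn μ (w i) (l i - m) x)
        (Pool.Agent.N565.MK.env μ (w i) (l i - m) d) ≤ C) :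
    ∀ (k : ℤ) (j : ℕ) (p q : Pq j), Sep p q → k + anc j p q ≤ -m0 →
      c ≤ 16 ^ (2 * anc j p q) * (k + anc j p q : ℝ) ^ 2 * Cv μ (Fk k) j p q (φ k) (φ k) ∧
        16 ^ (2 * anc j p q) * (k + anc j p q : ℝ) ^ 2 * Cv μ (Fk k) j p q (φ k) (φ k) ≤ C :=
  h.short isCov_VV fun m hm d => by
    simp only [VV_eq]
    exact hb m hm d

/-- **The constant of the short distance behaviour**, from the variances in the lattice -/
theorem exact_of_vr (h : LT μ w l O Fk φ) {L : ℝ}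
    (hb : ∀ ε : ℝ, 0 < ε → ∃ m0 : ℕ, ∀ m : ℕ, m0 ≤ m → ∀ᶠ i in atTop,
      |(m : ℝ) ^ 2 * Pool.Agent.N453.MK.vr μ (TTn μ (w i) (l i - m))
        (fun x => evo μ (w i) O (l i - m) x * TTn μ (w i) (l i - m) x) (fun _ => 1) - L| ≤ ε) :
    ∀ ε : ℝ, 0 < ε → ∃ m0 : ℕ, ∀ (m j : ℕ) (p q : Pq j), m0 ≤ m → Sep p q → anc j p q = j →
      |(16 : ℝ) ^ (2 * j) * m ^ 2 * Cv μ (Fk (-m - j)) j p q (φ (-m - j)) (φ (-m - j)) - L| ≤
        ε :=
  h.exact isCov_VV fun ε hε => by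
    obtain ⟨m0, hm0⟩ := hb ε hε
    refine ⟨m0, fun m hm => ?_⟩
    simp only [VV_eq]
    exact hm0 m hm

/-- **Positivity** -/
theorem pos_of_vr {Fk φ : ℤ → G → ℝ} (h : FT μ Fk φ) (hs : ∀ k, Sy (φ k)) :
    ∀ (k : ℤ) (j : ℕ) (p q : Pq j), Sep p q → 0 ≤ Cv μ (Fk k) j p q (φ k) (φ k) :=
  cv_nonneg h hs isCov_VV fun Z h hZ hh _ _ a d => VV_nonneg Z h hZ hh a d

end

end Pool.Agent.N839.T3
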