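import Mathlib
import Pool.Agent.N109.T3.Sc
import Pool.Agent.N991.MK.Gauss
import Pool.Agent.N991.MK.L1

/-!
# Scaling limits of concentrated functions on the group
-/

open MeasureTheory Filter Matrix Pool.Agent.N991.MK Pool.Agent.N989.MK
open scoped Matrix.Norms.Frobenius Topology
open Pool.Agent.H906R3.YM Pool.Agent.W793.YM Pool.Agent.TH618.YM Pool.Agent.N984.TW
open Pool.Agent.N109.T3 (nz gs cvR)

namespace Pool.Agent.N839.T3

set_option linter.unusedSectionVars false

noncomputable section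

variable {N n : ℕ} {G : Subgroup (UN N)} (B : Frame G n) (hG : IsClosed (G : Set (UN N)))

/-- the element of the group with the scaled coordinates `x` -/
def em (h : ℝ) (x : Fin n → ℝ) : G := Eg B hG ((Real.sqrt h)⁻¹ • x)

/-- The functions `f i` converge to `F` in the scaled coordinates, locally uniformly, and they are
dominated by Gaussians of the width `1 / √(h i)`. -/
structure SD {ι : Type*} (l : Filter ι) (h : ι → ℝ) (f : ι → G → ℝ)
    (F : (Fin n → ℝ) → ℝ) : Prop where
  top : Tendsto h l atTop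
  cont : ∀ i, Continuous (f i)
  lim : ∀ x, Tendsto (fun p : ι × (Fin n → ℝ) => f p.1 (em B hG (h p.1) p.2)) (l ×ˢ 𝓝 x)
    (𝓝 (F x))
  dom : ∃ C c : ℝ, 0 ≤ C ∧ 0 < c ∧ ∀ᶠ i in l, ∀ z : G,
    |f i z| ≤ C * Real.exp (-(c * (h i * nN z ^ 2)))

end

end Pool.Agent.N839.T3
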