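import Mathlib
import Pool.Agent.N839.T3.Sc1

/-!
# Scaled coordinates: products, compactness, concentration
-/

open MeasureTheory Filter Matrix Pool.Agent.N991.MK Pool.Agent.N989.MK
open scoped Matrix.Norms.Frobenius Topology
open Pool.Agent.H906R3.YM Pool.Agent.W793.YM Pool.Agent.TH618.YM Pool.Agent.N984.TW
open Pool.Agent.N109.T3 (nz gs cvR)

namespace Pool.Agent.N839.T3

set_option linter.unusedSectionVars false

noncomputable section

variable {N n : ℕ} {G : Subgroup (UN N)} {B : Frame G n} {hG : IsClosed (G : Set (UN N))}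

lemma gs_eq (x : Fin n → ℝ) : gs x = Real.exp (-(nE x ^ 2 / 2)) := by
  unfold Pool.Agent.N109.T3.gs
  rw [Pool.Agent.N991.MK.nE_sq]
  congr 1
  ring

lemma nE_cont : Continuous (nE : (Fin n → ℝ) → ℝ) := by
  unfold Pool.Agent.N991.MK.nE
  fun_prop

lemma pc_cont : Continuous (pc B) := (pc_contDiff B).continuous

/-! ### Size of the scaled points -/

lemma nN_em_le {h : ℝ} (hh : 0 < h) (x : Fin n → ℝ) :
    h * nN (em B hG h x) ^ 2 ≤ nE x ^ 2 := by
  have h1 : nN (em B hG h x) ≤ nE ((Real.sqrt h)⁻¹ • x) := nN_Eg_le B hG _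
  rw [nE_smul, abs_of_pos (inv_pos.2 (Real.sqrt_pos.2 hh))] at h1
  have h2 := pow_le_pow_left₀ (nN_nonneg _) h1 2
  rw [mul_pow, inv_pow, Real.sq_sqrt hh.le] at h2
  calc h * nN (em B hG h x) ^ 2 ≤ h * (h⁻¹ * nE x ^ 2) := mul_le_mul_of_nonneg_left h2 hh.le
    _ = nE x ^ 2 := by field_simp

lemma nN_em_ge {h : ℝ} (hh : 0 < h) {x : Fin n → ℝ} (hx : nE x ≤ Real.sqrt h / 2) :
    nE x ^ 2 / 4 ≤ h * nN (em B hG h x) ^ 2 := by
  have hs := Real.sqrt_pos.2 hh
  have h1 : nE ((Real.sqrt h)⁻¹ • x) ≤ nN (em B hG h x) + nE ((Real.sqrt h)⁻¹ • x) ^ 2 :=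
    nE_le_nN B hG _
  obtain ⟨s, hsd⟩ : ∃ s, s = nE ((Real.sqrt h)⁻¹ • x) := ⟨_, rfl⟩
  have h2 : s = nE x / Real.sqrt h := by
    rw [hsd, nE_smul, abs_of_pos (inv_pos.2 hs)]
    field_simp
  rw [← hsd] at h1
  have h3 : s ≤ 1 / 2 := by
    rw [h2, div_le_iff₀ hs]
    linarith
  have h4 : 0 ≤ s := by rw [hsd]; exact nE_nonneg _
  have h5 : s / 2 ≤ nN (em B hG h x) := by nlinarith
  have h6 := pow_le_pow_left₀ (by positivity) h5 2
  calc nE x ^ 2 / 4 = h * (s / 2) ^ 2 := by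
        rw [h2, div_pow, div_pow, Real.sq_sqrt hh.le]
        field_simp
        norm_num
    _ ≤ _ := mul_le_mul_of_nonneg_left h6 hh.le

/-! ### Limits in the scaled coordinates -/

variable {κ : Type*} {L : Filter κ} {H : κ → ℝ} {X Y : κ → Fin n → ℝ} {x0 y0 w0 : Fin n → ℝ}

lemma inv_sqrt_zero (hH : Tendsto H L atTop) :
    Tendsto (fun k => (Real.sqrt (H k))⁻¹) L (𝓝 0) :=
  tendsto_inv_atTop_zero.comp (Real.tendsto_sqrt_atTop.comp hH)

lemma em_mt (hH : Tendsto H L atTop) (hX : Tendsto X L (𝓝 x0)) :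
    Tendsto (fun k => Real.sqrt (H k) • (mt (em B hG (H k) (X k)) - 1)) L (𝓝 (LX B x0)) := by
  have h0 := inv_sqrt_zero hH
  have d0 : Tendsto (fun k => (Real.sqrt (H k))⁻¹ • X k) L (𝓝 0) := by
    simpa using h0.smul hX
  have cd : Tendsto (fun k => Real.sqrt (H k) • ((Real.sqrt (H k))⁻¹ • X k)) L (𝓝 x0) := by
    refine hX.congr' ?_
    filter_upwards [hH.eventually_gt_atTop 0] with k hk
    rw [smul_smul, mul_inv_cancel₀ (Real.sqrt_pos.2 hk).ne', one_smul]
  have h1 := ((hasFDerivAt_EM B).hasFDerivWithinAt (s := Set.univ)).lim d0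
    (Eventually.of_forall fun _ => Set.mem_univ _) cd
  refine h1.congr fun k => ?_
  rw [zero_add, EM_zero, em, mt_Eg]

lemma nN_em_zero (hH : Tendsto H L atTop) (hX : Tendsto X L (𝓝 x0)) :
    Tendsto (fun k => nN (em B hG (H k) (X k))) L (𝓝 0) := by
  have h1 := ((inv_sqrt_zero hH).mul (em_mt (B := B) (hG := hG) hH hX).norm)
  rw [zero_mul] at h1
  refine h1.congr' ?_
  filter_upwards [hH.eventually_gt_atTop 0] with k hk
  have hs := Real.sqrt_pos.2 hk
  rw [norm_smul, Real.norm_eq_abs, abs_of_pos hs, ← mul_assoc, inv_mul_cancel₀ hs.ne', one_mul]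
  rfl

lemma em_of_mt {g : κ → G} (hH : Tendsto H L atTop)
    (hg : Tendsto (fun k => Real.sqrt (H k) • (mt (g k) - 1)) L (𝓝 (LX B w0))) :
    ∃ W : κ → Fin n → ℝ, Tendsto W L (𝓝 w0) ∧ ∀ᶠ k in L, em B hG (H k) (W k) = g k := by
  obtain ⟨r, C, hr, hC, hL1, -, -⟩ := s_L1 B hG
  have hn : Tendsto (fun k => ‖mt (g k) - 1‖) L (𝓝 0) := by
    have h1 := (inv_sqrt_zero hH).mul hg.norm
    rw [zero_mul] at h1
    refine h1.congr' ?_
    filter_upwards [hH.eventually_gt_atTop 0] with k hk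
    have hs := Real.sqrt_pos.2 hk
    rw [norm_smul, Real.norm_eq_abs, abs_of_pos hs, ← mul_assoc, inv_mul_cancel₀ hs.ne', one_mul]
  have hex : ∀ k, ∃ y : Fin n → ℝ, ‖mt (g k) - 1‖ ≤ r → Eg B hG y = g k ∧
      nE y ≤ (1 + C * ‖mt (g k) - 1‖) * ‖mt (g k) - 1‖ := by
    intro k
    by_cases hk : ‖mt (g k) - 1‖ ≤ r
    · obtain ⟨y, hy⟩ := hL1 (g k) hk
      exact ⟨y, fun _ => hy⟩
    · exact ⟨0, fun h => absurd h hk⟩
  choose y hy using hex
  have hev : ∀ᶠ k in L, 0 < H k ∧ ‖mt (g k) - 1‖ ≤ r ∧ ‖mt (g k) - 1‖ ≤ 1 := by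
    filter_upwards [hH.eventually_gt_atTop 0, hn.eventually (ge_mem_nhds hr),
      hn.eventually (ge_mem_nhds one_pos)] with k h1 h2 h3
    exact ⟨h1, h2, h3⟩
  refine ⟨fun k => Real.sqrt (H k) • y k, ?_, ?_⟩
  · have h1 : Tendsto (fun k => LX B (Real.sqrt (H k) • y k)) L (𝓝 (LX B w0)) := by
      have h2 : Tendsto (fun k => Real.sqrt (H k) • (mt (g k) - 1) -
          (Real.sqrt (H k) • (mt (g k) - 1) - LX B (Real.sqrt (H k) • y k))) L
          (𝓝 (LX B w0 - 0)) := by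
        refine hg.sub ?_
        have h3 : Tendsto (fun k => (1 + C) ^ 2 * (‖Real.sqrt (H k) • (mt (g k) - 1)‖ *
            ‖mt (g k) - 1‖)) L (𝓝 ((1 + C) ^ 2 * (‖LX B w0‖ * 0))) :=
          (hg.norm.mul hn).const_mul _
        rw [mul_zero, mul_zero] at h3
        refine squeeze_zero_norm' ?_ h3
        filter_upwards [hev] with k hk
        obtain ⟨k1, k2, k3⟩ := hk
        obtain ⟨e1, e2⟩ := hy k k2
        have hs := Real.sqrt_pos.2 k1
        have e3 : Real.sqrt (H k) • (mt (g k) - 1) - LX B (Real.sqrt (H k) • y k) =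
            Real.sqrt (H k) • (EM B (y k) - 1 - LX B (y k)) := by
          rw [LX_smul, ← smul_sub, ← e1, mt_Eg]
        rw [e3, norm_smul, norm_smul, Real.norm_eq_abs, abs_of_pos hs]
        have e4 := norm_EM_sub_sub B hG (y k)
        have e5 : nE (y k) ≤ (1 + C) * ‖mt (g k) - 1‖ := by
          refine e2.trans (mul_le_mul_of_nonneg_right ?_ (norm_nonneg _))
          have := mul_le_mul_of_nonneg_left k3 hC
          linarith
        have e6 := pow_le_pow_left₀ (nE_nonneg _) e5 2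
        calc Real.sqrt (H k) * ‖EM B (y k) - 1 - LX B (y k)‖ ≤
            Real.sqrt (H k) * ((1 + C) * ‖mt (g k) - 1‖) ^ 2 :=
              mul_le_mul_of_nonneg_left (e4.trans e6) hs.le
          _ = _ := by ring
      rw [sub_zero] at h2
      exact h2.congr fun k => by abel
    have h2 := ((pc_cont (B := B)).tendsto _).comp h1
    simp only [pc_LX] at h2
    refine h2.congr fun k => ?_
    exact pc_LX B _
  · filter_upwards [hev] with k hk
    obtain ⟨k1, k2, k3⟩ := hk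
    obtain ⟨e1, e2⟩ := hy k k2
    have hs := Real.sqrt_pos.2 k1
    rw [← e1]
    unfold em
    rw [smul_smul, inv_mul_cancel₀ hs.ne', one_smul]

lemma mt_em_inv_one (hH : Tendsto H L atTop) (hX : Tendsto X L (𝓝 x0)) :
    Tendsto (fun k => mt (em B hG (H k) (X k))⁻¹) L (𝓝 1) := by
  refine tendsto_iff_norm_sub_tendsto_zero.2 ?_
  refine (nN_em_zero (B := B) (hG := hG) hH hX).congr fun k => ?_
  rw [← nN_inv]
  rfl

lemma em_sub_lim (hH : Tendsto H L atTop) (hX : Tendsto X L (𝓝 x0)) (hY : Tendsto Y L (𝓝 y0)) :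
    Tendsto (fun k => Real.sqrt (H k) • (mt (em B hG (H k) (Y k)) - mt (em B hG (H k) (X k)))) L
      (𝓝 (LX B (y0 - x0))) := by
  have h1 := (em_mt (B := B) (hG := hG) hH hY).sub (em_mt (B := B) (hG := hG) hH hX)
  have e : LX B y0 - LX B x0 = LX B (y0 - x0) := by
    rw [sub_eq_add_neg, ← LX_neg, ← LX_add, ← sub_eq_add_neg]
  rw [e] at h1
  refine h1.congr fun k => ?_
  rw [← smul_sub]
  congr 1
  abel

/-- the quotient of two scaled points -/
lemma em_quot (hH : Tendsto H L atTop) (hX : Tendsto X L (𝓝 x0)) (hY : Tendsto Y L (𝓝 y0)) :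
    ∃ W : κ → Fin n → ℝ, Tendsto W L (𝓝 (y0 - x0)) ∧
      ∀ᶠ k in L, em B hG (H k) (W k) = (em B hG (H k) (X k))⁻¹ * em B hG (H k) (Y k) := by
  refine em_of_mt hH ?_
  have h1 := (mt_em_inv_one (B := B) (hG := hG) hH hX).mul
    (em_sub_lim (B := B) (hG := hG) hH hX hY)
  rw [one_mul] at h1
  refine h1.congr fun k => ?_
  have e : mt (em B hG (H k) (X k))⁻¹ * mt (em B hG (H k) (X k)) = 1 := by
    rw [← mt_mul, inv_mul_cancel, mt_one]
  rw [mul_smul_comm, mul_sub, e, ← mt_mul]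

/-- the quotient of two scaled points, on the other side -/
lemma em_quot' (hH : Tendsto H L atTop) (hX : Tendsto X L (𝓝 x0)) (hY : Tendsto Y L (𝓝 y0)) :
    ∃ W : κ → Fin n → ℝ, Tendsto W L (𝓝 (y0 - x0)) ∧
      ∀ᶠ k in L, em B hG (H k) (W k) = em B hG (H k) (Y k) * (em B hG (H k) (X k))⁻¹ := by
  refine em_of_mt hH ?_
  have h1 := (em_sub_lim (B := B) (hG := hG) hH hX hY).mul
    (mt_em_inv_one (B := B) (hG := hG) hH hX)
  rw [mul_one] at h1
  refine h1.congr fun k => ?_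
  have e : mt (em B hG (H k) (X k)) * mt (em B hG (H k) (X k))⁻¹ = 1 := by
    rw [← mt_mul, mul_inv_cancel, mt_one]
  rw [smul_mul_assoc, sub_mul, e, ← mt_mul]

/-- the size in the scaled coordinates -/
lemma em_size (hH : Tendsto H L atTop) (hX : Tendsto X L (𝓝 x0)) :
    Tendsto (fun k => H k * nN (em B hG (H k) (X k)) ^ 2) L (𝓝 (nE x0 ^ 2)) := by
  have h1 := ((em_mt (B := B) (hG := hG) hH hX).norm.pow 2)
  rw [norm_LX] at h1
  refine h1.congr' ?_
  filter_upwards [hH.eventually_gt_atTop 0] with k hk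
  rw [norm_smul, mul_pow, Real.norm_eq_abs, sq_abs, Real.sq_sqrt hk.le]
  rfl

end

end Pool.Agent.N839.T3
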