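import Mathlib
import Pool.Agent.N839.T3.Sc2

/-!
# Concentrated functions which vanish in the scaled coordinates
-/

open MeasureTheory Filter Matrix Pool.Agent.N991.MK Pool.Agent.N989.MK
open scoped Matrix.Norms.Frobenius Topology
open Pool.Agent.H906R3.YM Pool.Agent.W793.YM Pool.Agent.TH618.YM Pool.Agent.N984.TW
open Pool.Agent.N109.T3 (nz gs cvR)

namespace Pool.Agent.N839.T3

set_option linter.unusedSectionVars false

noncomputable section

variable {N n : ℕ} {G : Subgroup (UN N)} {B : Frame G n} {hG : IsClosed (G : Set (UN N))}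
  {ι : Type*} {l : Filter ι} {h : ι → ℝ} {f : ι → G → ℝ} {F : (Fin n → ℝ) → ℝ}

lemma SD.app (H : SD B hG l h f F) {κ : Type*} {L : Filter κ} {i : κ → ι}
    {W : κ → Fin n → ℝ} {w0 : Fin n → ℝ} (hi : Tendsto i L l) (hW : Tendsto W L (𝓝 w0)) :
    Tendsto (fun k => f (i k) (em B hG (h (i k)) (W k))) L (𝓝 (F w0)) :=
  (H.lim w0).comp (hi.prodMk hW)

lemma isCompact_nE (R : ℝ) : IsCompact {x : Fin n → ℝ | nE x ≤ R} := by
  refine Metric.isCompact_of_isClosed_isBounded (isClosed_le nE_cont continuous_const) ?_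
  refine (Metric.isBounded_closedBall (x := (0 : Fin n → ℝ)) (r := R)).subset fun x hx => ?_
  rw [mem_closedBall_zero_iff]
  exact (norm_le_nE x).trans hx

/-- the convergence in the scaled coordinates is uniform on the balls of the scaled radius -/
lemma unif_small {k : ι → G → ℝ} (hh : Tendsto h l atTop)
    (hk : ∀ x, Tendsto (fun p : ι × (Fin n → ℝ) => k p.1 (em B hG (h p.1) p.2)) (l ×ˢ 𝓝 x)
      (𝓝 0)) {R η : ℝ} (hη : 0 < η) :
    ∀ᶠ i in l, ∀ z : G, h i * nN z ^ 2 ≤ R → |k i z| ≤ η := by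
  obtain ⟨r, C, hr, hC, hL1, -, -⟩ := s_L1 B hG
  have hK := isCompact_nE (n := n) ((1 + C) * Real.sqrt R)
  have hs : {p : ι × (Fin n → ℝ) | |k p.1 (em B hG (h p.1) p.2)| ≤ η} ∈
      l ×ˢ (nhdsSet {x : Fin n → ℝ | nE x ≤ (1 + C) * Real.sqrt R}) := by
    refine hK.mem_prod_nhdsSet_of_forall fun x _ => ?_
    have h1 := (hk x).abs
    rw [abs_zero] at h1
    exact h1.eventually (ge_mem_nhds hη)
  obtain ⟨t1, ht1, t2, ht2, hsub⟩ := mem_prod_iff.1 hs
  have hK2 := subset_of_mem_nhdsSet ht2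
  filter_upwards [ht1, hh.eventually_gt_atTop 0,
    hh.eventually_ge_atTop (R / (min r 1) ^ 2)] with i hi h0 h1 z hz
  have hm : 0 < min r 1 := lt_min hr one_pos
  have hR : R ≤ h i * (min r 1) ^ 2 := by
    rwa [div_le_iff₀ (by positivity)] at h1
  have h2 : nN z ^ 2 ≤ (min r 1) ^ 2 := by
    have h3 := hz.trans hR
    exact le_of_mul_le_mul_left h3 h0
  have h3 : nN z ≤ min r 1 := by
    have := abs_le_of_sq_le_sq h2 hm.le
    exact (abs_le.1 (by rw [abs_of_nonneg (nN_nonneg z)]; exact (le_abs_self _).trans (by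
      rw [abs_of_nonneg (nN_nonneg z)]
      exact (le_abs_self _).trans (abs_le_of_sq_le_sq h2 hm.le)))).2
  obtain ⟨y, e1, e2⟩ := hL1 z (h3.trans (min_le_left _ _))
  have hsq := Real.sqrt_pos.2 h0
  have e3 : em B hG (h i) (Real.sqrt (h i) • y) = z := by
    rw [← e1]
    unfold em
    rw [smul_smul, inv_mul_cancel₀ hsq.ne', one_smul]
  have e4 : nE (Real.sqrt (h i) • y) ≤ (1 + C) * Real.sqrt R := by
    rw [nE_smul, abs_of_pos hsq]
    have e5 : nE y ≤ (1 + C) * nN z := by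
      refine e2.trans (mul_le_mul_of_nonneg_right ?_ (nN_nonneg z))
      have h4 : nN z ≤ 1 := h3.trans (min_le_right _ _)
      have := mul_le_mul_of_nonneg_left h4 hC
      change 1 + C * nN z ≤ 1 + C
      linarith
    have e6 : Real.sqrt (h i) * nN z ≤ Real.sqrt R := by
      refine Real.le_sqrt_of_sq_le ?_
      rw [mul_pow, Real.sq_sqrt h0.le]
      exact hz
    calc Real.sqrt (h i) * nE y ≤ Real.sqrt (h i) * ((1 + C) * nN z) :=
          mul_le_mul_of_nonneg_left e5 hsq.le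
      _ = (1 + C) * (Real.sqrt (h i) * nN z) := by ring
      _ ≤ _ := mul_le_mul_of_nonneg_left e6 (by positivity)
  have h5 := hsub (Set.mk_mem_prod hi (hK2 e4))
  have h6 : |k i (em B hG (h i) (Real.sqrt (h i) • y))| ≤ η := h5
  rwa [e3] at h6

section meas

variable [MeasurableSpace G] [BorelSpace G] {μ : Measure G} [IsProbabilityMeasure μ]
  [μ.IsMulLeftInvariant]

lemma cont_gauss (a : ℝ) : Continuous fun z : G => Real.exp (-(a * nN z ^ 2)) := by
  have := nN_cont (G := G)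
  fun_prop

variable [CompactSpace G]

lemma int_cont {u : G → ℝ} (hu : Continuous u) : Integrable u μ :=
  hu.integrable_of_hasCompactSupport (HasCompactSupport.of_compactSpace _)

lemma nz_pos (h : ℝ) : 0 < nz μ h := by
  unfold Pool.Agent.N109.T3.nz
  have h1 := cont_gauss (G := G) (h / 2)
  rw [integral_pos_iff_support_of_nonneg (fun z => (Real.exp_pos _).le) (int_cont h1)]
  have h3 : Function.support (fun z : G => Real.exp (-(h / 2 * nN z ^ 2))) = Set.univ := by
    ext z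
    simp [(Real.exp_pos _).ne']
  rw [h3, measure_univ]
  exact one_pos

lemma gauss_nz {c : ℝ} (hc : 0 < c) : ∃ C1 : ℝ, 0 < C1 ∧ ∀ h : ℝ, 0 < h →
    ∫ z : G, Real.exp (-(c * (h * nN z ^ 2))) ∂μ ≤ C1 * nz μ h := by
  obtain ⟨C, hC, hg⟩ := gauss_le μ (G := G) c hc
  refine ⟨C * Real.exp (1 / 2), by positivity, fun h hh => ?_⟩
  have hs := Real.sqrt_pos.2 hh
  have h1 := hg (Real.sqrt h)⁻¹ (inv_pos.2 hs)
  have e : ∀ z : G, (nN z / (Real.sqrt h)⁻¹) ^ 2 = h * nN z ^ 2 := by
    intro z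
    rw [div_inv_eq_mul, mul_pow, Real.sq_sqrt hh.le]
    ring
  simp only [e] at h1
  refine h1.trans ?_
  rw [mul_assoc]
  refine mul_le_mul_of_nonneg_left ?_ hC.le
  have h2 : μ.real (bl (Real.sqrt h)⁻¹ : Set G) =
      ∫ z, (bl (Real.sqrt h)⁻¹ : Set G).indicator (fun _ => (1 : ℝ)) z ∂μ := by
    rw [integral_indicator_const _ (bl_meas _)]
    simp
  rw [h2]
  unfold Pool.Agent.N109.T3.nz
  rw [← integral_const_mul]
  refine integral_mono ((integrable_const _).indicator (bl_meas _))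
    (int_cont (continuous_const.mul (cont_gauss (h / 2)))) fun z => ?_
  beta_reduce
  by_cases hz : z ∈ (bl (Real.sqrt h)⁻¹ : Set G)
  · rw [Set.indicator_of_mem hz, ← Real.exp_add]
    refine Real.one_le_exp ?_
    have h3 : nN z ≤ (Real.sqrt h)⁻¹ := hz
    have h4 := pow_le_pow_left₀ (nN_nonneg z) h3 2
    rw [inv_pow, Real.sq_sqrt hh.le] at h4
    have h5 : h / 2 * nN z ^ 2 ≤ 1 / 2 := by
      calc h / 2 * nN z ^ 2 ≤ h / 2 * h⁻¹ := mul_le_mul_of_nonneg_left h4 (by positivity)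
        _ = 1 / 2 := by field_simp
    linarith
  · rw [Set.indicator_of_notMem hz]
    positivity

/-- **a dominated sequence with the scaled limit zero** -/
lemma small {k : ι → G → ℝ} (hh : Tendsto h l atTop) (hc : ∀ i, Continuous (k i))
    (hk : ∀ x, Tendsto (fun p : ι × (Fin n → ℝ) => k p.1 (em B hG (h p.1) p.2)) (l ×ˢ 𝓝 x)
      (𝓝 0))
    (hd : ∃ C c : ℝ, 0 ≤ C ∧ 0 < c ∧ ∀ᶠ i in l, ∀ z : G,
      |k i z| ≤ C * Real.exp (-(c * (h i * nN z ^ 2)))) :
    Tendsto (fun i => (∫ z, k i z ∂μ) / nz μ (h i)) l (𝓝 0) := by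
  obtain ⟨C, c, hC, hc0, hd⟩ := hd
  obtain ⟨C1, hC1, hg⟩ := gauss_nz (μ := μ) (c := c / 2) (by positivity)
  rw [Metric.tendsto_nhds]
  intro ε hε
  obtain ⟨R, hR⟩ : ∃ R : ℝ, C * Real.exp (-(c / 2 * R)) * C1 ≤ ε / 4 := by
    have h1 : Tendsto (fun R : ℝ => C * Real.exp (-(c / 2 * R)) * C1) atTop (𝓝 (C * 0 * C1)) := by
      refine Tendsto.mul_const _ (Tendsto.const_mul _ ?_)
      exact Real.tendsto_exp_neg_atTop_nhds_zero.comp
        (tendsto_id.const_mul_atTop (by positivity))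
    rw [mul_zero, zero_mul] at h1
    exact (h1.eventually (ge_mem_nhds (by positivity))).exists
  have hη : 0 < ε / 4 * Real.exp (-(R / 2)) := by positivity
  filter_upwards [hd, hh.eventually_gt_atTop 0, unif_small hh hk (R := R) hη] with i hi h0 hu
  have hnz := nz_pos (μ := μ) (h i)
  have hpt : ∀ z : G, |k i z| ≤ ε / 4 * Real.exp (-(h i / 2 * nN z ^ 2)) +
      C * Real.exp (-(c / 2 * R)) * Real.exp (-(c / 2 * (h i * nN z ^ 2))) := by
    intro z
    rcases le_total (h i * nN z ^ 2) R with hz | hz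
    · have h1 := hu z hz
      have h2 : Real.exp (-(R / 2)) ≤ Real.exp (-(h i / 2 * nN z ^ 2)) :=
        Real.exp_le_exp.2 (by linarith)
      have h3 : ε / 4 * Real.exp (-(R / 2)) ≤ ε / 4 * Real.exp (-(h i / 2 * nN z ^ 2)) :=
        mul_le_mul_of_nonneg_left h2 (by positivity)
      have h4 : 0 ≤ C * Real.exp (-(c / 2 * R)) * Real.exp (-(c / 2 * (h i * nN z ^ 2))) := by
        positivity
      linarith
    · have h1 := hi z
      have h2 : Real.exp (-(c * (h i * nN z ^ 2))) ≤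
          Real.exp (-(c / 2 * R)) * Real.exp (-(c / 2 * (h i * nN z ^ 2))) := by
        rw [← Real.exp_add]
        refine Real.exp_le_exp.2 ?_
        have := mul_le_mul_of_nonneg_left hz (by positivity : 0 ≤ c / 2)
        linarith
      have h3 := mul_le_mul_of_nonneg_left h2 hC
      have h4 : 0 ≤ ε / 4 * Real.exp (-(h i / 2 * nN z ^ 2)) := by positivity
      rw [mul_assoc]
      linarith
  have i1 : Integrable (fun z : G => ε / 4 * Real.exp (-(h i / 2 * nN z ^ 2))) μ :=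
    int_cont (continuous_const.mul (cont_gauss _))
  have c2 : Continuous fun z : G => Real.exp (-(c / 2 * (h i * nN z ^ 2))) := by
    have := nN_cont (G := G)
    fun_prop
  have i2 : Integrable (fun z : G => C * Real.exp (-(c / 2 * R)) *
      Real.exp (-(c / 2 * (h i * nN z ^ 2)))) μ := int_cont (continuous_const.mul c2)
  rw [dist_zero_right, Real.norm_eq_abs, abs_div, abs_of_pos hnz, div_lt_iff₀ hnz]
  calc |∫ z, k i z ∂μ| ≤ ∫ z, |k i z| ∂μ := abs_integral_le_integral_abs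
    _ ≤ ∫ z, (ε / 4 * Real.exp (-(h i / 2 * nN z ^ 2)) +
        C * Real.exp (-(c / 2 * R)) * Real.exp (-(c / 2 * (h i * nN z ^ 2)))) ∂μ :=
        integral_mono (int_cont (hc i)).abs (i1.add i2) hpt
    _ = ε / 4 * nz μ (h i) + C * Real.exp (-(c / 2 * R)) *
        ∫ z : G, Real.exp (-(c / 2 * (h i * nN z ^ 2))) ∂μ := by
        rw [integral_add i1 i2, integral_const_mul, integral_const_mul]
        rfl
    _ ≤ ε / 4 * nz μ (h i) + C * Real.exp (-(c / 2 * R)) * (C1 * nz μ (h i)) := by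
        have := hg (h i) h0
        gcongr
    _ = ε / 4 * nz μ (h i) + C * Real.exp (-(c / 2 * R)) * C1 * nz μ (h i) := by ring
    _ ≤ ε / 4 * nz μ (h i) + ε / 4 * nz μ (h i) := by gcongr
    _ < ε * nz μ (h i) := by nlinarith

end meas

end

end Pool.Agent.N839.T3
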