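import Mathlib
import Pool.Agent.N839.T3.ScZ

/-!
# The limit of the integrals in the scaled coordinates

The Haar measure is compared with the Lebesgue measure by the argument which proves the uniqueness
of the Haar measure.
-/

open MeasureTheory Filter Matrix Pool.Agent.N991.MK Pool.Agent.N989.MK
open scoped Matrix.Norms.Frobenius Topology
open Pool.Agent.H906R3.YM Pool.Agent.W793.YM Pool.Agent.TH618.YM Pool.Agent.N984.TW
open Pool.Agent.N109.T3 (nz gs cvR)

namespace Pool.Agent.N839.T3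

set_option linter.unusedSectionVars false

noncomputable section

variable {N n : ℕ} {G : Subgroup (UN N)} {B : Frame G n} {hG : IsClosed (G : Set (UN N))}
  {ι : Type*} {l : Filter ι} {h : ι → ℝ} {f : ι → G → ℝ} {F : (Fin n → ℝ) → ℝ}

/-! ### Gaussian integrals on `ℝ ^ n` -/

lemma exp_nE_int {c : ℝ} (hc : 0 < c) :
    Integrable fun a : Fin n → ℝ => Real.exp (-(c * nE a ^ 2)) := by
  have h1 : Integrable (fun a : Fin n → ℝ => ∏ b, Real.exp (-c * a b ^ 2)) := by
    rw [volume_pi]
    exact Integrable.fintype_prod (f := fun _ (t : ℝ) => Real.exp (-c * t ^ 2)) fun _ =>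
      integrable_exp_neg_mul_sq hc
  refine h1.congr (Eventually.of_forall fun a => ?_)
  beta_reduce
  rw [← Real.exp_sum, Pool.Agent.N991.MK.nE_sq, ← Finset.mul_sum, neg_mul]

lemma gs_int : Integrable (gs (n := n)) := by
  refine (exp_nE_int (n := n) (c := 1 / 2) (by norm_num)).congr
    (Eventually.of_forall fun a => ?_)
  beta_reduce
  rw [gs_eq]
  congr 1
  ring

lemma gs_int_pos : 0 < ∫ x, gs (n := n) x := by
  rw [integral_pos_iff_support_of_nonneg (fun z => by rw [gs_eq]; exact (Real.exp_pos _).le)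
    gs_int]
  have h3 : Function.support (gs (n := n)) = Set.univ := by
    ext z
    rw [Function.mem_support, gs_eq]
    simp [(Real.exp_pos _).ne']
  rw [h3]
  exact isOpen_univ.measure_pos _ Set.univ_nonempty

/-! ### Continuity -/

lemma cont_em (h : ℝ) : Continuous fun a : Fin n → ℝ => em B hG h a :=
  (Eg_cont B hG).comp (continuous_const_smul _)

/-- the domain of the scaled coordinates -/
def Dm (n : ℕ) (h : ℝ) : Set (Fin n → ℝ) := {a | nE a ≤ Real.sqrt h / 2}

lemma Dm_comp (h : ℝ) : IsCompact (Dm n h) := isCompact_nE _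

lemma Dm_meas (h : ℝ) : MeasurableSet (Dm n h) := (Dm_comp h).isClosed.measurableSet

/-- the elementary estimate of the sizes -/
lemma size_le {e u v t H E : ℝ} (ht : 0 < t) (hH : 0 ≤ H) (he : 0 ≤ e)
    (h1 : e ≤ u + v) (h2 : E / 4 ≤ H * e ^ 2) :
    E / (4 * (1 + t)) - H * v ^ 2 / t ≤ H * u ^ 2 := by
  have h3 : e ^ 2 ≤ (u + v) ^ 2 := pow_le_pow_left₀ he h1 2
  have h4 : (u + v) ^ 2 ≤ (1 + t) * (u ^ 2 + v ^ 2 / t) := by
    have h5 : 2 * (u * v) ≤ t * u ^ 2 + v ^ 2 / t := by
      have h6 := sq_nonneg (t * u - v)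
      have h7 : 0 ≤ (t * u - v) ^ 2 / t := div_nonneg h6 ht.le
      have e7 : (t * u - v) ^ 2 / t = t * u ^ 2 + v ^ 2 / t - 2 * (u * v) := by
        field_simp
        ring
      linarith
    have e8 : (1 + t) * (u ^ 2 + v ^ 2 / t) = u ^ 2 + v ^ 2 + (t * u ^ 2 + v ^ 2 / t) := by
      field_simp
      ring
    rw [e8]
    nlinarith
  have h5 : E / 4 ≤ H * ((1 + t) * (u ^ 2 + v ^ 2 / t)) :=
    h2.trans (mul_le_mul_of_nonneg_left (h3.trans h4) hH)
  have h6 : E / (4 * (1 + t)) ≤ H * (u ^ 2 + v ^ 2 / t) := by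
    rw [div_le_iff₀ (by positivity)]
    nlinarith
  have e9 : H * (u ^ 2 + v ^ 2 / t) = H * u ^ 2 + H * v ^ 2 / t := by ring
  linarith

section meas

variable [MeasurableSpace G] [BorelSpace G] {μ : Measure G} [IsProbabilityMeasure μ]
  [μ.IsMulLeftInvariant] [μ.IsMulRightInvariant] [μ.IsInvInvariant]

/-- the substitution -/
lemma subst (e : G) (u v : G → ℝ) :
    ∫ z, u z * v (z⁻¹ * e) ∂μ = ∫ z, u (e * z⁻¹) * v z ∂μ := by
  have h1 := integral_mul_right_eq_self (μ := μ) (fun z => u (e * z⁻¹) * v z) e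
  have h2 := integral_inv_eq_self (μ := μ) (fun z => u (e * (z * e)⁻¹) * v (z * e))
  rw [← h1, ← h2]
  refine integral_congr_ae (Eventually.of_forall fun z => ?_)
  beta_reduce
  have e1 : e * (z⁻¹ * e)⁻¹ = z := by group
  rw [e1]

/-- **Fubini** -/
lemma fub [CompactSpace G] [SecondCountableTopology G] {u v : G → ℝ} (hu : Continuous u)
    (hv : Continuous v) (h : ℝ) :
    ∫ z, u z * (∫ a in Dm n h, v (z⁻¹ * em B hG h a)) ∂μ =
      ∫ z, v z * (∫ a in Dm n h, u (em B hG h a * z⁻¹)) ∂μ := by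
  have hfin : IsFiniteMeasure (volume.restrict (Dm n h)) :=
    ⟨by rw [Measure.restrict_apply_univ]; exact (Dm_comp h).measure_lt_top⟩
  obtain ⟨Ku, hKu⟩ : ∃ K : ℝ, ∀ x, ‖u x‖ ≤ K := by
    obtain ⟨K, hK⟩ := isCompact_univ.exists_bound_of_continuousOn hu.continuousOn
    exact ⟨K, fun x => hK x (Set.mem_univ _)⟩
  obtain ⟨Kv, hKv⟩ : ∃ K : ℝ, ∀ x, ‖v x‖ ≤ K := by
    obtain ⟨K, hK⟩ := isCompact_univ.exists_bound_of_continuousOn hv.continuousOn
    exact ⟨K, fun x => hK x (Set.mem_univ _)⟩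
  have hKu0 : 0 ≤ Ku := (norm_nonneg _).trans (hKu 1)
  have ce := cont_em (B := B) (hG := hG) h
  have c1 : Continuous (Function.uncurry fun (z : G) (a : Fin n → ℝ) =>
      u z * v (z⁻¹ * em B hG h a)) :=
    (hu.comp continuous_fst).mul (hv.comp ((continuous_inv.comp continuous_fst).mul
      (ce.comp continuous_snd)))
  have c2 : Continuous (Function.uncurry fun (a : Fin n → ℝ) (z : G) =>
      u (em B hG h a * z⁻¹) * v z) :=
    (hu.comp ((ce.comp continuous_fst).mul (continuous_inv.comp continuous_snd))).mul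
      (hv.comp continuous_snd)
  have i1 : Integrable (Function.uncurry fun (z : G) (a : Fin n → ℝ) =>
      u z * v (z⁻¹ * em B hG h a)) (μ.prod (volume.restrict (Dm n h))) := by
    refine Integrable.of_bound c1.aestronglyMeasurable (Ku * Kv) (Eventually.of_forall fun p => ?_)
    change ‖u p.1 * v _‖ ≤ _
    rw [norm_mul]
    exact mul_le_mul (hKu _) (hKv _) (norm_nonneg _) hKu0
  have i2 : Integrable (Function.uncurry fun (a : Fin n → ℝ) (z : G) =>
      u (em B hG h a * z⁻¹) * v z) ((volume.restrict (Dm n h)).prod μ) := by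
    refine Integrable.of_bound c2.aestronglyMeasurable (Ku * Kv) (Eventually.of_forall fun p => ?_)
    change ‖u _ * v p.2‖ ≤ _
    rw [norm_mul]
    exact mul_le_mul (hKu _) (hKv _) (norm_nonneg _) hKu0
  calc ∫ z, u z * (∫ a in Dm n h, v (z⁻¹ * em B hG h a)) ∂μ =
      ∫ z, (∫ a in Dm n h, u z * v (z⁻¹ * em B hG h a)) ∂μ := by
        refine integral_congr_ae (Eventually.of_forall fun z => ?_)
        beta_reduce
        rw [integral_const_mul]
    _ = ∫ a in Dm n h, (∫ z, u z * v (z⁻¹ * em B hG h a) ∂μ) := integral_integral_swap i1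
    _ = ∫ a in Dm n h, (∫ z, u (em B hG h a * z⁻¹) * v z ∂μ) := by
        refine integral_congr_ae (Eventually.of_forall fun a => ?_)
        exact subst _ u v
    _ = ∫ z, (∫ a in Dm n h, u (em B hG h a * z⁻¹) * v z) ∂μ := integral_integral_swap i2
    _ = _ := by
        refine integral_congr_ae (Eventually.of_forall fun z => ?_)
        beta_reduce
        rw [integral_mul_const, mul_comm]

end meas

lemma cont_inner {h : ℝ} {v : G → ℝ} (hv : Continuous v) :
    Continuous fun z : G => ∫ a in Dm n h, v (z⁻¹ * em B hG h a) := by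
  have : CompactSpace G := isCompact_iff_compactSpace.1 hG.isCompact
  refine continuous_parametric_integral_of_continuous ?_ (Dm_comp h)
  exact hv.comp ((continuous_inv.comp continuous_fst).mul
    ((cont_em (B := B) (hG := hG) h).comp continuous_snd))

lemma cont_inner' {h : ℝ} {v : G → ℝ} (hv : Continuous v) :
    Continuous fun z : G => ∫ a in Dm n h, v (em B hG h a * z⁻¹) := by
  have : CompactSpace G := isCompact_iff_compactSpace.1 hG.isCompact
  refine continuous_parametric_integral_of_continuous ?_ (Dm_comp h)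
  exact hv.comp (((cont_em (B := B) (hG := hG) h).comp continuous_snd).mul
    (continuous_inv.comp continuous_fst))

/-- a Gaussian bound of the inner integrals -/
lemma inner_bd {h c t C : ℝ} (hh : 0 < h) (hc : 0 < c) (ht : 0 < t) (hC : 0 ≤ C)
    {w : (Fin n → ℝ) → ℝ} {q : (Fin n → ℝ) → G} {v : ℝ}
    (hw : ∀ a, |w a| ≤ C * Real.exp (-(c * (h * nN (q a) ^ 2))))
    (hq : ∀ a, nN (em B hG h a) ≤ nN (q a) + v) {a : Fin n → ℝ} (ha : a ∈ Dm n h) :
    |w a| ≤ C * Real.exp (c * (h * v ^ 2 / t)) *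
      Real.exp (-(c / (4 * (1 + t)) * nE a ^ 2)) := by
  have h1 := size_le ht hh.le (nN_nonneg (em B hG h a)) (hq a)
    (nN_em_ge (B := B) (hG := hG) hh ha)
  refine (hw a).trans ?_
  rw [mul_assoc, ← Real.exp_add]
  refine mul_le_mul_of_nonneg_left (Real.exp_le_exp.2 ?_) hC
  have h2 := mul_le_mul_of_nonneg_left h1 hc.le
  have e1 : c * (nE a ^ 2 / (4 * (1 + t)) - h * v ^ 2 / t) =
    c / (4 * (1 + t)) * nE a ^ 2 - c * (h * v ^ 2 / t) := by ring
  rw [e1] at h2
  linarith

/-- the limit of the inner integrals at scaled points -/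
lemma inner_lim [l.IsCountablyGenerated] {h : ι → ℝ} (hh : Tendsto h l atTop)
    {w : ι × (Fin n → ℝ) → (Fin n → ℝ) → ℝ} {q : ι × (Fin n → ℝ) → (Fin n → ℝ) → G}
    {W : (Fin n → ℝ) → ℝ} {x0 : Fin n → ℝ} {c C : ℝ} (hc : 0 < c) (hC : 0 ≤ C)
    (hwc : ∀ p, Continuous (w p))
    (hw : ∀ᶠ p in l ×ˢ 𝓝 x0, ∀ a, |w p a| ≤ C * Real.exp (-(c * (h p.1 * nN (q p a) ^ 2))))
    (hq : ∀ p a, nN (em B hG (h p.1) a) ≤ nN (q p a) + nN (em B hG (h p.1) p.2))
    (hlim : ∀ a, Tendsto (fun p => w p a) (l ×ˢ 𝓝 x0) (𝓝 (W a))) :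
    Tendsto (fun p : ι × (Fin n → ℝ) => ∫ a in Dm n (h p.1), w p a) (l ×ˢ 𝓝 x0)
      (𝓝 (∫ a, W a)) := by
  have hh' : Tendsto (fun p : ι × (Fin n → ℝ) => h p.1) (l ×ˢ 𝓝 x0) atTop :=
    hh.comp tendsto_fst
  obtain ⟨K, hK⟩ : ∃ K, K = (nE x0 + 1) ^ 2 := ⟨_, rfl⟩
  have hx : ∀ᶠ p : ι × (Fin n → ℝ) in l ×ˢ 𝓝 x0, nE p.2 ^ 2 ≤ K := by
    have h1 : Tendsto (fun p : ι × (Fin n → ℝ) => nE p.2) (l ×ˢ 𝓝 x0) (𝓝 (nE x0)) :=
      (nE_cont.tendsto x0).comp tendsto_snd
    filter_upwards [h1.eventually (ge_mem_nhds (lt_add_one _))] with p hp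
    rw [hK]
    exact pow_le_pow_left₀ (nE_nonneg _) hp 2
  have hfun : (fun p : ι × (Fin n → ℝ) => ∫ a in Dm n (h p.1), w p a) =
      fun p => ∫ a, (Dm n (h p.1)).indicator (w p) a := by
    funext p
    rw [integral_indicator (Dm_meas _)]
  rw [hfun]
  refine tendsto_integral_filter_of_dominated_convergence
    (fun a => C * Real.exp (c * K) * Real.exp (-(c / (4 * (1 + 1)) * nE a ^ 2))) ?_ ?_ ?_ ?_
  · exact Eventually.of_forall fun p =>
      (hwc p).aestronglyMeasurable.indicator (Dm_meas _)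
  · filter_upwards [hw, hx, hh'.eventually_gt_atTop 0] with p h1 h2 h3
    refine Eventually.of_forall fun a => ?_
    rw [Real.norm_eq_abs]
    by_cases ha : a ∈ Dm n (h p.1)
    · rw [Set.indicator_of_mem ha]
      refine (inner_bd (B := B) (hG := hG) h3 hc one_pos hC h1 (hq p) ha).trans ?_
      refine mul_le_mul_of_nonneg_right (mul_le_mul_of_nonneg_left (Real.exp_le_exp.2 ?_) hC)
        (Real.exp_pos _).le
      rw [div_one]
      exact mul_le_mul_of_nonneg_left ((nN_em_le h3 _).trans h2) hc.le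
    · rw [Set.indicator_of_notMem ha, abs_zero]
      positivity
  · exact (exp_nE_int (by positivity)).const_mul _
  · refine Eventually.of_forall fun a => ?_
    have h1 : ∀ᶠ p : ι × (Fin n → ℝ) in l ×ˢ 𝓝 x0, a ∈ Dm n (h p.1) := by
      have h2 : Tendsto (fun p : ι × (Fin n → ℝ) => Real.sqrt (h p.1) / 2) (l ×ˢ 𝓝 x0) atTop :=
        (Real.tendsto_sqrt_atTop.comp hh').atTop_div_const (by norm_num)
      exact h2.eventually_ge_atTop (nE a)
    refine (hlim a).congr' ?_
    filter_upwards [h1] with p hp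
    rw [Set.indicator_of_mem hp]

lemma gm_app {κ : Type*} {L : Filter κ} {H : κ → ℝ} {W : κ → Fin n → ℝ} {w0 : Fin n → ℝ}
    (hH : Tendsto H L atTop) (hW : Tendsto W L (𝓝 w0)) :
    Tendsto (fun k => Real.exp (-(H k / 2 * nN (em B hG (H k) (W k)) ^ 2))) L (𝓝 (gs w0)) := by
  rw [gs_eq]
  have h1 := (em_size (B := B) (hG := hG) hH hW).div_const 2
  refine (Real.continuous_exp.tendsto _).comp (h1.neg.congr fun k => ?_)
  ring

section meas

variable [MeasurableSpace G] [BorelSpace G] {μ : Measure G} [IsProbabilityMeasure μ]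
  [μ.IsMulLeftInvariant] [μ.IsMulRightInvariant] [μ.IsInvInvariant]

/-- **the limit of the integrals** -/
theorem SD.int_lim [l.IsCountablyGenerated] (H : SD B hG l h f F) :
    Tendsto (fun i => (∫ z, f i z ∂μ) / nz μ (h i)) l (𝓝 ((∫ x, F x) / ∫ x, gs (n := n) x)) := by
  have hcomp : CompactSpace G := isCompact_iff_compactSpace.1 hG.isCompact
  have h00 : SecondCountableTopology (UN N) := TopologicalSpace.Subtype.secondCountableTopology _
  have hsc : SecondCountableTopology G := TopologicalSpace.Subtype.secondCountableTopology _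
  obtain ⟨C, c, hC, hc, hd⟩ := H.dom
  have hh := H.top
  obtain ⟨gm, hgm⟩ : ∃ gm : ι → G → ℝ, gm = fun i z => Real.exp (-(h i / 2 * nN z ^ 2)) :=
    ⟨_, rfl⟩
  have cgm : ∀ i, Continuous (gm i) := fun i => by rw [hgm]; exact cont_gauss _
  obtain ⟨Γ, hΓ⟩ : ∃ Γ, Γ = ∫ x, gs (n := n) x := ⟨_, rfl⟩
  have hΓ0 : 0 < Γ := by rw [hΓ]; exact gs_int_pos
  obtain ⟨F0, hF0⟩ : ∃ F0, F0 = ∫ x, F x := ⟨_, rfl⟩
  obtain ⟨A, hA⟩ : ∃ A : ι → G → ℝ, A = fun i z =>
    ∫ a in Dm n (h i), gm i (z⁻¹ * em B hG (h i) a) := ⟨_, rfl⟩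
  obtain ⟨E, hE⟩ : ∃ E : ι → G → ℝ, E = fun i z =>
    ∫ a in Dm n (h i), f i (em B hG (h i) a * z⁻¹) := ⟨_, rfl⟩
  have cA : ∀ i, Continuous (A i) := fun i => by rw [hA]; exact cont_inner (cgm i)
  have cE : ∀ i, Continuous (E i) := fun i => by rw [hE]; exact cont_inner' (H.cont i)
  -- the limits of the inner integrals
  have limA : ∀ x0, Tendsto (fun p : ι × (Fin n → ℝ) => A p.1 (em B hG (h p.1) p.2))
      (l ×ˢ 𝓝 x0) (𝓝 Γ) := by
    intro x0
    have hh' : Tendsto (fun p : ι × (Fin n → ℝ) => h p.1) (l ×ˢ 𝓝 x0) atTop :=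
      hh.comp tendsto_fst
    have h1 := inner_lim (B := B) (hG := hG) (l := l) (x0 := x0) hh
      (w := fun p a => gm p.1 ((em B hG (h p.1) p.2)⁻¹ * em B hG (h p.1) a))
      (q := fun p a => (em B hG (h p.1) p.2)⁻¹ * em B hG (h p.1) a)
      (W := fun a => gs (a - x0)) (c := 1 / 2) (C := 1) (by norm_num) zero_le_one
      (fun p => (cgm p.1).comp (continuous_const.mul (cont_em _)))
      (Eventually.of_forall fun p a => by
        rw [hgm]
        beta_reduce
        rw [abs_of_pos (Real.exp_pos _), one_mul]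
        refine le_of_eq ?_
        congr 1
        ring)
      (fun p a => by
        have h2 := nN_mul_le (em B hG (h p.1) p.2)
          ((em B hG (h p.1) p.2)⁻¹ * em B hG (h p.1) a)
        rw [mul_inv_cancel_left] at h2
        linarith)
      (fun a => by
        obtain ⟨W, hW, hWe⟩ := em_quot (B := B) (hG := hG) hh'
          (X := fun p : ι × (Fin n → ℝ) => p.2) (x0 := x0) tendsto_snd
          (Y := fun _ => a) (y0 := a) tendsto_const_nhds
        refine (gm_app (B := B) (hG := hG) hh' hW).congr' ?_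
        filter_upwards [hWe] with p hp
        rw [hp, hgm])
    rw [hA, hΓ]
    have e : ∫ a : Fin n → ℝ, gs (a - x0) = ∫ a, gs (n := n) a :=
      integral_sub_right_eq_self (fun a : Fin n → ℝ => gs a) x0
    rw [e] at h1
    exact h1
  have limE : ∀ x0, Tendsto (fun p : ι × (Fin n → ℝ) => E p.1 (em B hG (h p.1) p.2))
      (l ×ˢ 𝓝 x0) (𝓝 F0) := by
    intro x0
    have hh' : Tendsto (fun p : ι × (Fin n → ℝ) => h p.1) (l ×ˢ 𝓝 x0) atTop :=
      hh.comp tendsto_fst
    have h1 := inner_lim (B := B) (hG := hG) (l := l) (x0 := x0) hh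
      (w := fun p a => f p.1 (em B hG (h p.1) a * (em B hG (h p.1) p.2)⁻¹))
      (q := fun p a => em B hG (h p.1) a * (em B hG (h p.1) p.2)⁻¹)
      (W := fun a => F (a - x0)) hc hC
      (fun p => (H.cont p.1).comp ((cont_em _).mul continuous_const))
      ((tendsto_fst.eventually hd).mono fun p hp a => hp _)
      (fun p a => by
        have h2 := nN_mul_le (em B hG (h p.1) a * (em B hG (h p.1) p.2)⁻¹)
          (em B hG (h p.1) p.2)
        rw [inv_mul_cancel_right] at h2
        exact h2)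
      (fun a => by
        obtain ⟨W, hW, hWe⟩ := em_quot' (B := B) (hG := hG) hh'
          (X := fun p : ι × (Fin n → ℝ) => p.2) (x0 := x0) tendsto_snd
          (Y := fun _ => a) (y0 := a) tendsto_const_nhds
        refine (H.app tendsto_fst hW).congr' ?_
        filter_upwards [hWe] with p hp
        rw [hp])
    rw [hE, hF0]
    have e : ∫ a : Fin n → ℝ, F (a - x0) = ∫ a, F a :=
      integral_sub_right_eq_self (fun a : Fin n → ℝ => F a) x0
    rw [e] at h1
    exact h1
  -- the bounds of the inner integrals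
  have bdA : ∃ CA : ℝ, 0 ≤ CA ∧ ∀ i, 0 < h i → ∀ z, |A i z| ≤
      CA * Real.exp (c / 2 * (h i * nN z ^ 2)) := by
    refine ⟨∫ a : Fin n → ℝ, Real.exp (-(1 / 2 / (4 * (1 + 1 / c)) * nE a ^ 2)),
      integral_nonneg fun a => (Real.exp_pos _).le, fun i hi z => ?_⟩
    have hi1 : Integrable fun a : Fin n → ℝ =>
        Real.exp (-(1 / 2 / (4 * (1 + 1 / c)) * nE a ^ 2)) := exp_nE_int (by positivity)
    rw [hA, ← Real.norm_eq_abs]
    beta_reduce
    refine (norm_integral_le_of_norm_le (f := fun a : Fin n → ℝ =>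
      gm i (z⁻¹ * em B hG (h i) a)) (μ := volume.restrict (Dm n (h i))) (g := fun a : Fin n → ℝ =>
      Real.exp (c / 2 * (h i * nN z ^ 2)) *
        Real.exp (-(1 / 2 / (4 * (1 + 1 / c)) * nE a ^ 2))) ?_ ?_).trans ?_
    · exact (hi1.const_mul _).integrableOn
    · refine (ae_restrict_iff' (Dm_meas _)).2 (Eventually.of_forall fun a ha => ?_)
      have h1 := inner_bd (B := B) (hG := hG) (h := h i) (c := 1 / 2) (t := 1 / c) (C := 1) hi
        (by norm_num) (by positivity) zero_le_one
        (w := fun a => gm i (z⁻¹ * em B hG (h i) a)) (q := fun a => z⁻¹ * em B hG (h i) a)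
        (v := nN z) (fun a => by
          rw [hgm]
          beta_reduce
          rw [abs_of_pos (Real.exp_pos _), one_mul]
          refine le_of_eq ?_
          congr 1
          ring)
        (fun a => by
          have h2 := nN_mul_le z (z⁻¹ * em B hG (h i) a)
          rw [mul_inv_cancel_left] at h2
          linarith) ha
      rw [Real.norm_eq_abs]
      refine h1.trans (le_of_eq ?_)
      rw [one_mul]
      congr 2
      field_simp
    · rw [integral_const_mul, mul_comm]
      refine mul_le_mul_of_nonneg_right ?_ (Real.exp_pos _).le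
      exact setIntegral_le_integral hi1 (Eventually.of_forall fun a => (Real.exp_pos _).le)
  have bdE : ∃ CE : ℝ, 0 ≤ CE ∧ ∀ᶠ i in l, ∀ z, |E i z| ≤
      CE * Real.exp (1 / 4 * (h i * nN z ^ 2)) := by
    refine ⟨C * ∫ a : Fin n → ℝ, Real.exp (-(c / (4 * (1 + 4 * c)) * nE a ^ 2)),
      mul_nonneg hC (integral_nonneg fun a => (Real.exp_pos _).le), ?_⟩
    filter_upwards [hd, hh.eventually_gt_atTop 0] with i hdi hi z
    have hi1 : Integrable fun a : Fin n → ℝ =>
        Real.exp (-(c / (4 * (1 + 4 * c)) * nE a ^ 2)) := exp_nE_int (by positivity)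
    rw [hE, ← Real.norm_eq_abs]
    beta_reduce
    refine (norm_integral_le_of_norm_le (f := fun a : Fin n → ℝ =>
      f i (em B hG (h i) a * z⁻¹)) (μ := volume.restrict (Dm n (h i))) (g := fun a : Fin n → ℝ =>
      C * Real.exp (1 / 4 * (h i * nN z ^ 2)) *
        Real.exp (-(c / (4 * (1 + 4 * c)) * nE a ^ 2))) ?_ ?_).trans ?_
    · exact (hi1.const_mul _).integrableOn
    · refine (ae_restrict_iff' (Dm_meas _)).2 (Eventually.of_forall fun a ha => ?_)
      have h1 := inner_bd (B := B) (hG := hG) (h := h i) (c := c) (t := 4 * c) (C := C) hi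
        hc (by positivity) hC
        (w := fun a => f i (em B hG (h i) a * z⁻¹)) (q := fun a => em B hG (h i) a * z⁻¹)
        (v := nN z) (fun a => hdi _)
        (fun a => by
          have h2 := nN_mul_le (em B hG (h i) a * z⁻¹) z
          rw [inv_mul_cancel_right] at h2
          exact h2) ha
      rw [Real.norm_eq_abs]
      refine h1.trans (le_of_eq ?_)
      congr 3
      field_simp
    · rw [integral_const_mul]
      have h2 : ∫ a in Dm n (h i), Real.exp (-(c / (4 * (1 + 4 * c)) * nE a ^ 2)) ≤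
          ∫ a : Fin n → ℝ, Real.exp (-(c / (4 * (1 + 4 * c)) * nE a ^ 2)) :=
        setIntegral_le_integral hi1 (Eventually.of_forall fun a => (Real.exp_pos _).le)
      calc _ ≤ C * Real.exp (1 / 4 * (h i * nN z ^ 2)) *
            ∫ a : Fin n → ℝ, Real.exp (-(c / (4 * (1 + 4 * c)) * nE a ^ 2)) :=
            mul_le_mul_of_nonneg_left h2 (by positivity)
        _ = _ := by ring
  obtain ⟨CA, hCA, bdA⟩ := bdA
  obtain ⟨CE, hCE, bdE⟩ := bdE
  -- the two small terms
  have s1 : Tendsto (fun i => (∫ z, f i z * (A i z - Γ) ∂μ) / nz μ (h i)) l (𝓝 0) := by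
    refine small (B := B) (hG := hG) hh (fun i => (H.cont i).mul ((cA i).sub continuous_const))
      (fun x => ?_) ⟨C * (CA + Γ), c / 2, by positivity, by positivity, ?_⟩
    · have h1 := (H.lim x).mul ((limA x).sub_const Γ)
      rw [sub_self, mul_zero] at h1
      exact h1
    · filter_upwards [hd, hh.eventually_gt_atTop 0] with i hdi hi z
      rw [abs_mul]
      have hX : 0 ≤ h i * nN z ^ 2 := by positivity
      have h1 : |A i z - Γ| ≤ (CA + Γ) * Real.exp (c / 2 * (h i * nN z ^ 2)) := by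
        refine (abs_sub _ _).trans ?_
        rw [abs_of_pos hΓ0, add_mul]
        refine add_le_add (bdA i hi z) ?_
        exact le_mul_of_one_le_right hΓ0.le (Real.one_le_exp (by positivity))
      calc |f i z| * |A i z - Γ| ≤ (C * Real.exp (-(c * (h i * nN z ^ 2)))) *
            ((CA + Γ) * Real.exp (c / 2 * (h i * nN z ^ 2))) :=
            mul_le_mul (hdi z) h1 (abs_nonneg _) (by positivity)
        _ = C * (CA + Γ) * (Real.exp (-(c * (h i * nN z ^ 2))) *
            Real.exp (c / 2 * (h i * nN z ^ 2))) := by ring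
        _ = _ := by
            rw [← Real.exp_add]
            congr 2
            ring
  have s2 : Tendsto (fun i => (∫ z, gm i z * (E i z - F0) ∂μ) / nz μ (h i)) l (𝓝 0) := by
    refine small (B := B) (hG := hG) hh (fun i => (cgm i).mul ((cE i).sub continuous_const))
      (fun x => ?_) ⟨CE + |F0|, 1 / 4, by positivity, by norm_num, ?_⟩
    · have hh' : Tendsto (fun p : ι × (Fin n → ℝ) => h p.1) (l ×ˢ 𝓝 x) atTop :=
        hh.comp tendsto_fst
      have h0 := gm_app (B := B) (hG := hG) hh'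
        (W := fun p : ι × (Fin n → ℝ) => p.2) (w0 := x) tendsto_snd
      have h1 := h0.mul ((limE x).sub_const F0)
      rw [sub_self, mul_zero] at h1
      rw [hgm]
      exact h1
    · filter_upwards [bdE, hh.eventually_gt_atTop 0] with i hbi hi z
      rw [abs_mul]
      have hX : 0 ≤ h i * nN z ^ 2 := by positivity
      have h1 : |E i z - F0| ≤ (CE + |F0|) * Real.exp (1 / 4 * (h i * nN z ^ 2)) := by
        refine (abs_sub _ _).trans ?_
        rw [add_mul]
        refine add_le_add (hbi z) ?_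
        exact le_mul_of_one_le_right (abs_nonneg _) (Real.one_le_exp (by positivity))
      have h2 : |gm i z| = Real.exp (-(1 / 2 * (h i * nN z ^ 2))) := by
        rw [hgm]
        beta_reduce
        rw [abs_of_pos (Real.exp_pos _)]
        congr 1
        ring
      rw [h2]
      calc Real.exp (-(1 / 2 * (h i * nN z ^ 2))) * |E i z - F0| ≤
            Real.exp (-(1 / 2 * (h i * nN z ^ 2))) *
              ((CE + |F0|) * Real.exp (1 / 4 * (h i * nN z ^ 2))) :=
            mul_le_mul_of_nonneg_left h1 (Real.exp_pos _).le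
        _ = (CE + |F0|) * (Real.exp (-(1 / 2 * (h i * nN z ^ 2))) *
            Real.exp (1 / 4 * (h i * nN z ^ 2))) := by ring
        _ = _ := by
            rw [← Real.exp_add]
            congr 2
            ring
  -- conclusion
  have h1 : ∀ i, Γ * ((∫ z, f i z ∂μ) / nz μ (h i)) =
      F0 + (∫ z, gm i z * (E i z - F0) ∂μ) / nz μ (h i) -
        (∫ z, f i z * (A i z - Γ) ∂μ) / nz μ (h i) := by
    intro i
    have hnz := (nz_pos (μ := μ) (h i)).ne'
    have a1 : ∫ z, f i z * (A i z - Γ) ∂μ = (∫ z, f i z * A i z ∂μ) - Γ * ∫ z, f i z ∂μ := by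
      have j1 : Integrable (fun z => f i z * A i z) μ := int_cont ((H.cont i).mul (cA i))
      have j2 : Integrable (fun z => Γ * f i z) μ := int_cont (continuous_const.mul (H.cont i))
      rw [← integral_const_mul, ← integral_sub j1 j2]
      refine integral_congr_ae (Eventually.of_forall fun z => ?_)
      beta_reduce
      ring
    have a2 : ∫ z, gm i z * (E i z - F0) ∂μ = (∫ z, gm i z * E i z ∂μ) - F0 * nz μ (h i) := by
      have e : nz μ (h i) = ∫ z, gm i z ∂μ := by rw [hgm]; rfl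
      have j1 : Integrable (fun z => gm i z * E i z) μ := int_cont ((cgm i).mul (cE i))
      have j2 : Integrable (fun z => F0 * gm i z) μ := int_cont (continuous_const.mul (cgm i))
      rw [e, ← integral_const_mul, ← integral_sub j1 j2]
      refine integral_congr_ae (Eventually.of_forall fun z => ?_)
      beta_reduce
      ring
    have a3 : ∫ z, f i z * A i z ∂μ = ∫ z, gm i z * E i z ∂μ := by
      rw [hA, hE]
      exact fub (H.cont i) (cgm i) (h i)
    rw [a1, a2, a3]
    field_simp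
    ring
  have h2 : Tendsto (fun i => Γ * ((∫ z, f i z ∂μ) / nz μ (h i))) l (𝓝 F0) := by
    have h3 := (s2.const_add F0).sub s1
    rw [add_zero, sub_zero] at h3
    exact h3.congr fun i => (h1 i).symm
  have h3 := h2.const_mul Γ⁻¹
  rw [← hF0, ← hΓ]
  have e : Γ⁻¹ * F0 = F0 / Γ := by rw [inv_mul_eq_div]
  rw [e] at h3
  refine h3.congr fun i => ?_
  rw [← mul_assoc, inv_mul_cancel₀ hΓ0.ne', one_mul]

end meas

end

end Pool.Agent.N839.T3
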