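import Mathlib
import Pool.Agent.N839.T3.ScI

/-!
# The calculus of concentrated functions in the scaled coordinates
-/

open MeasureTheory Filter Matrix Pool.Agent.N991.MK Pool.Agent.N989.MK
open scoped Matrix.Norms.Frobenius Topology
open Pool.Agent.H906R3.YM Pool.Agent.W793.YM Pool.Agent.TH618.YM Pool.Agent.N984.TW
open Pool.Agent.N109.T3 (nz gs cvR)

namespace Pool.Agent.N839.T3

set_option linter.unusedSectionVars false

noncomputable section

variable {N n : ℕ} {G : Subgroup (UN N)} {B : Frame G n} {hG : IsClosed (G : Set (UN N))}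
  {ι : Type*} {l : Filter ι} {h : ι → ℝ} {f g : ι → G → ℝ} {F Γ : (Fin n → ℝ) → ℝ}

lemma SD.mul (H : SD B hG l h f F) (K : SD B hG l h g Γ) :
    SD B hG l h (fun i x => f i x * g i x) (fun x => F x * Γ x) := by
  refine ⟨H.top, fun i => (H.cont i).mul (K.cont i), fun x => (H.lim x).mul (K.lim x), ?_⟩
  obtain ⟨C, c, hC, hc, hd⟩ := H.dom
  obtain ⟨C', c', hC', hc', hd'⟩ := K.dom
  refine ⟨C * C', c, by positivity, hc, ?_⟩
  filter_upwards [hd, hd', H.top.eventually_gt_atTop 0] with i h1 h2 h3 z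
  rw [abs_mul]
  have h4 : Real.exp (-(c' * (h i * nN z ^ 2))) ≤ 1 := by
    refine Real.exp_le_one_iff.2 (neg_nonpos.2 (by positivity))
  calc |f i z| * |g i z| ≤ C * Real.exp (-(c * (h i * nN z ^ 2))) *
        (C' * Real.exp (-(c' * (h i * nN z ^ 2)))) :=
        mul_le_mul (h1 z) (h2 z) (abs_nonneg _) (by positivity)
    _ ≤ C * Real.exp (-(c * (h i * nN z ^ 2))) * (C' * 1) := by gcongr
    _ = _ := by ring

lemma SD.add (H : SD B hG l h f F) (K : SD B hG l h g Γ) :
    SD B hG l h (fun i x => f i x + g i x) (fun x => F x + Γ x) := by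
  refine ⟨H.top, fun i => (H.cont i).add (K.cont i), fun x => (H.lim x).add (K.lim x), ?_⟩
  obtain ⟨C, c, hC, hc, hd⟩ := H.dom
  obtain ⟨C', c', hC', hc', hd'⟩ := K.dom
  refine ⟨C + C', min c c', by positivity, lt_min hc hc', ?_⟩
  filter_upwards [hd, hd', H.top.eventually_gt_atTop 0] with i h1 h2 h3 z
  have hX : 0 ≤ h i * nN z ^ 2 := by positivity
  have h4 : Real.exp (-(c * (h i * nN z ^ 2))) ≤ Real.exp (-(min c c' * (h i * nN z ^ 2))) :=
    Real.exp_le_exp.2 (neg_le_neg (mul_le_mul_of_nonneg_right (min_le_left _ _) hX))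
  have h5 : Real.exp (-(c' * (h i * nN z ^ 2))) ≤ Real.exp (-(min c c' * (h i * nN z ^ 2))) :=
    Real.exp_le_exp.2 (neg_le_neg (mul_le_mul_of_nonneg_right (min_le_right _ _) hX))
  calc |f i z + g i z| ≤ |f i z| + |g i z| := abs_add_le _ _
    _ ≤ C * Real.exp (-(c * (h i * nN z ^ 2))) + C' * Real.exp (-(c' * (h i * nN z ^ 2))) :=
        add_le_add (h1 z) (h2 z)
    _ ≤ C * Real.exp (-(min c c' * (h i * nN z ^ 2))) +
        C' * Real.exp (-(min c c' * (h i * nN z ^ 2))) := by gcongr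
    _ = _ := by ring

lemma SD.smul {c : ι → ℝ} {c0 : ℝ} (hc : Tendsto c l (𝓝 c0)) (H : SD B hG l h f F) :
    SD B hG l h (fun i x => c i * f i x) (fun x => c0 * F x) := by
  refine ⟨H.top, fun i => continuous_const.mul (H.cont i), fun x =>
    (hc.comp tendsto_fst).mul (H.lim x), ?_⟩
  obtain ⟨C, a, hC, ha, hd⟩ := H.dom
  refine ⟨(|c0| + 1) * C, a, by positivity, ha, ?_⟩
  filter_upwards [hd, hc.abs.eventually (ge_mem_nhds (lt_add_one _))] with i h1 h2 z
  rw [abs_mul, mul_assoc]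
  exact mul_le_mul h2 (h1 z) (abs_nonneg _) (by positivity)

lemma SD.congr {f' : ι → G → ℝ} {F' : (Fin n → ℝ) → ℝ} (H : SD B hG l h f F)
    (hf : ∀ i x, f' i x = f i x) (hF : ∀ x, F' x = F x) : SD B hG l h f' F' := by
  obtain rfl : f' = f := by
    funext i x
    exact hf i x
  obtain rfl : F' = F := by
    funext x
    exact hF x
  exact H

/-- from locally uniform convergence -/
lemma SD.of_unif (top : Tendsto h l atTop) (cont : ∀ i, Continuous (f i)) (contF : Continuous F)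
    (lim : ∀ R : ℝ, ∀ ε > 0, ∀ᶠ i in l, ∀ x : Fin n → ℝ, nE x ≤ R →
      |f i (em B hG (h i) x) - F x| ≤ ε)
    (dom : ∃ C c : ℝ, 0 ≤ C ∧ 0 < c ∧ ∀ᶠ i in l, ∀ z : G,
      |f i z| ≤ C * Real.exp (-(c * (h i * nN z ^ 2)))) : SD B hG l h f F := by
  refine ⟨top, cont, fun x => ?_, dom⟩
  rw [Metric.tendsto_nhds]
  intro ε hε
  have h1 : Tendsto (fun p : ι × (Fin n → ℝ) => nE p.2) (l ×ˢ 𝓝 x) (𝓝 (nE x)) :=
    (nE_cont.tendsto x).comp tendsto_snd
  have h2 : Tendsto (fun p : ι × (Fin n → ℝ) => F p.2) (l ×ˢ 𝓝 x) (𝓝 (F x)) :=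
    (contF.tendsto x).comp tendsto_snd
  filter_upwards [tendsto_fst.eventually (lim (nE x + 1) (ε / 2) (half_pos hε)),
    h1.eventually (ge_mem_nhds (lt_add_one _)),
    (Metric.tendsto_nhds.1 h2) (ε / 2) (half_pos hε)] with p k1 k2 k3
  rw [Real.dist_eq] at k3 ⊢
  have k4 := k1 p.2 k2
  have e : f p.1 (em B hG (h p.1) p.2) - F x =
    (f p.1 (em B hG (h p.1) p.2) - F p.2) + (F p.2 - F x) := by ring
  rw [e]
  refine (abs_add_le _ _).trans_lt ?_
  linarith

variable [MeasurableSpace G] [BorelSpace G] {μ : Measure G} [IsProbabilityMeasure μ]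
  [μ.IsMulLeftInvariant] [μ.IsMulRightInvariant] [μ.IsInvInvariant]

/-- **convolution** -/
theorem SD.conv [l.IsCountablyGenerated] (H : SD B hG l h f F) (K : SD B hG l h g Γ) :
    SD B hG l h (fun i x => Pool.Agent.N991.MK.conv μ (f i) (g i) x / nz μ (h i))
      (fun x => cvR F Γ x / ∫ y, gs (n := n) y) := by
  have hcomp : CompactSpace G := isCompact_iff_compactSpace.1 hG.isCompact
  have h00 : SecondCountableTopology (UN N) := TopologicalSpace.Subtype.secondCountableTopology _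
  have hsc : SecondCountableTopology G := TopologicalSpace.Subtype.secondCountableTopology _
  obtain ⟨C, c, hC, hc, hd⟩ := H.dom
  obtain ⟨C', c', hC', hc', hd'⟩ := K.dom
  refine ⟨H.top, fun i => (cont_conv (H.cont i) (K.cont i)).div_const _, fun x0 => ?_, ?_⟩
  · have hh' : Tendsto (fun p : ι × (Fin n → ℝ) => h p.1) (l ×ˢ 𝓝 x0) atTop :=
      H.top.comp tendsto_fst
    have U : SD B hG (l ×ˢ 𝓝 x0) (fun p : ι × (Fin n → ℝ) => h p.1)
        (fun p y => f p.1 y * g p.1 (y⁻¹ * em B hG (h p.1) p.2))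
        (fun y => F y * Γ (x0 - y)) := by
      refine ⟨hh', fun p => (H.cont p.1).mul ((K.cont p.1).comp
        (continuous_inv.mul continuous_const)), fun y0 => ?_, ⟨C * C', c, by positivity, hc, ?_⟩⟩
      · have t1 : Tendsto (fun q : (ι × (Fin n → ℝ)) × (Fin n → ℝ) => q.1.1)
            ((l ×ˢ 𝓝 x0) ×ˢ 𝓝 y0) l := tendsto_fst.comp tendsto_fst
        have t2 : Tendsto (fun q : (ι × (Fin n → ℝ)) × (Fin n → ℝ) => q.1.2)
            ((l ×ˢ 𝓝 x0) ×ˢ 𝓝 y0) (𝓝 x0) := tendsto_snd.comp tendsto_fst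
        have t3 : Tendsto (fun q : (ι × (Fin n → ℝ)) × (Fin n → ℝ) => q.2)
            ((l ×ˢ 𝓝 x0) ×ˢ 𝓝 y0) (𝓝 y0) := tendsto_snd
        obtain ⟨W, hW, hWe⟩ := em_quot (B := B) (hG := hG) (H.top.comp t1) t3 t2
        refine (H.app t1 t3).mul ((K.app t1 hW).congr' ?_)
        filter_upwards [hWe] with q hq
        have hq' : em B hG (h q.1.1) (W q) =
          (em B hG (h q.1.1) q.2)⁻¹ * em B hG (h q.1.1) q.1.2 := hq
        rw [hq']
      · filter_upwards [tendsto_fst.eventually hd, tendsto_fst.eventually hd',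
          hh'.eventually_gt_atTop 0] with p h1 h2 h3 y
        rw [abs_mul]
        have h4 := h2 (y⁻¹ * em B hG (h p.1) p.2)
        have h5 : C' * Real.exp (-(c' * (h p.1 * nN (y⁻¹ * em B hG (h p.1) p.2) ^ 2))) ≤
            C' * 1 := by
          refine mul_le_mul_of_nonneg_left (Real.exp_le_one_iff.2 (neg_nonpos.2 ?_)) hC'
          positivity
        calc _ ≤ C * Real.exp (-(c * (h p.1 * nN y ^ 2))) * (C' * 1) :=
              mul_le_mul (h1 y) (h4.trans h5) (abs_nonneg _) (by positivity)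
          _ = _ := by ring
    exact U.int_lim (μ := μ)
  · obtain ⟨C1, hC1, hg1⟩ := gauss_nz (μ := μ) (G := G) (c := min c c' / 2)
      (by have := lt_min hc hc'; positivity)
    refine ⟨C * C' * C1, min c c' / 4, by positivity,
      by have := lt_min hc hc'; positivity, ?_⟩
    filter_upwards [hd, hd', H.top.eventually_gt_atTop 0] with i h1 h2 h3 z
    obtain ⟨m, hm⟩ : ∃ m, m = min c c' := ⟨_, rfl⟩
    have hm0 : 0 < m := by rw [hm]; exact lt_min hc hc'
    have hmc : m ≤ c := by rw [hm]; exact min_le_left _ _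
    have hmc' : m ≤ c' := by rw [hm]; exact min_le_right _ _
    rw [← hm] at hg1 ⊢
    have hnz := nz_pos (μ := μ) (h i)
    rw [abs_div, abs_of_pos hnz, div_le_iff₀ hnz]
    have hpt : ∀ y : G, |f i y * g i (y⁻¹ * z)| ≤
        C * C' * Real.exp (-(m / 4 * (h i * nN z ^ 2))) *
          Real.exp (-(m / 2 * (h i * nN y ^ 2))) := by
      intro y
      rw [abs_mul]
      have e0 : nN z ≤ nN y + nN (y⁻¹ * z) := by
        have := nN_mul_le y (y⁻¹ * z)
        rwa [mul_inv_cancel_left] at this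
      have e1 : nN z ^ 2 ≤ 2 * (nN y ^ 2 + nN (y⁻¹ * z) ^ 2) := by
        have h4 := pow_le_pow_left₀ (nN_nonneg z) e0 2
        nlinarith [sq_nonneg (nN y - nN (y⁻¹ * z))]
      have e2 : |f i y| ≤ C * Real.exp (-(m * (h i * nN y ^ 2))) := by
        refine (h1 y).trans (mul_le_mul_of_nonneg_left (Real.exp_le_exp.2 (neg_le_neg ?_)) hC)
        exact mul_le_mul_of_nonneg_right hmc (by positivity)
      have e3 : |g i (y⁻¹ * z)| ≤ C' * Real.exp (-(m * (h i * nN (y⁻¹ * z) ^ 2))) := by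
        refine (h2 _).trans (mul_le_mul_of_nonneg_left (Real.exp_le_exp.2 (neg_le_neg ?_)) hC')
        exact mul_le_mul_of_nonneg_right hmc' (by positivity)
      calc |f i y| * |g i (y⁻¹ * z)| ≤ C * Real.exp (-(m * (h i * nN y ^ 2))) *
            (C' * Real.exp (-(m * (h i * nN (y⁻¹ * z) ^ 2)))) :=
            mul_le_mul e2 e3 (abs_nonneg _) (by positivity)
        _ = C * C' * Real.exp (-(m * (h i * nN y ^ 2)) + -(m * (h i * nN (y⁻¹ * z) ^ 2))) := by
            rw [Real.exp_add]; ring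
        _ ≤ C * C' * Real.exp (-(m / 4 * (h i * nN z ^ 2)) + -(m / 2 * (h i * nN y ^ 2))) := by
            refine mul_le_mul_of_nonneg_left (Real.exp_le_exp.2 ?_) (by positivity)
            have h5 := mul_le_mul_of_nonneg_left e1 (by positivity : 0 ≤ m / 4 * h i)
            have h6 : 0 ≤ m * h i * nN (y⁻¹ * z) ^ 2 := by positivity
            nlinarith
        _ = _ := by rw [Real.exp_add]; ring
    have hi1 : Integrable (fun y => f i y * g i (y⁻¹ * z)) μ :=
      int_cont ((H.cont i).mul ((K.cont i).comp (continuous_inv.mul continuous_const)))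
    have c2 : Continuous fun y : G => C * C' * Real.exp (-(m / 4 * (h i * nN z ^ 2))) *
        Real.exp (-(m / 2 * (h i * nN y ^ 2))) := by
      have := nN_cont (G := G)
      fun_prop
    unfold Pool.Agent.N991.MK.conv
    calc |∫ y, f i y * g i (y⁻¹ * z) ∂μ| ≤ ∫ y, |f i y * g i (y⁻¹ * z)| ∂μ :=
          abs_integral_le_integral_abs
      _ ≤ ∫ y, C * C' * Real.exp (-(m / 4 * (h i * nN z ^ 2))) *
          Real.exp (-(m / 2 * (h i * nN y ^ 2))) ∂μ := integral_mono hi1.abs (int_cont c2) hpt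
      _ = C * C' * Real.exp (-(m / 4 * (h i * nN z ^ 2))) *
          ∫ y : G, Real.exp (-(m / 2 * (h i * nN y ^ 2))) ∂μ := by rw [integral_const_mul]
      _ ≤ C * C' * Real.exp (-(m / 4 * (h i * nN z ^ 2))) * (C1 * nz μ (h i)) := by
          have := hg1 (h i) h3
          gcongr
      _ = _ := by ring

end

end Pool.Agent.N839.T3
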